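import Pool.Agent.H67.AT.Targets
import Pool.Agent.H67.AT.Ser

/-!
# Row SEL: the choice of the root
-/

set_option autoImplicit false

open Finset PowerSeries Pool.Agent.H67.AT

namespace Pool.Agent.H29.AT

open Classical in
theorem pf_SEL : T_SEL := by
  intro X _ s Q Ψ good θ hθ hs hs1 hQ hΨ hhalf hgood hpsi
  by_contra hcon
  have hcon' : ∀ x x', 0 < s x → 0 < Q x x' → good x x' → θ ≤ Ψ x x' := by
    intro x x' h1 h2 h3
    by_contra h4
    exact hcon ⟨x, x', h1, h2, h3, not_le.1 h4⟩
  have key : ∀ x x', s x * Q x x' ≤ s x * (if good x x' then 0 else Q x x') +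
      s x * Q x x' * Ψ x x' / θ := by
    intro x x'
    rcases (hs x).lt_or_eq with h1 | h1
    · rcases (hQ x x').lt_or_eq with h2 | h2
      · by_cases h3 : good x x'
        · rw [if_pos h3, mul_zero, zero_add, le_div_iff₀ hθ]
          exact mul_le_mul_of_nonneg_left (hcon' x x' h1 h2 h3) (mul_nonneg h1.le h2.le)
        · rw [if_neg h3]
          have h4 : 0 ≤ s x * Q x x' * Ψ x x' / θ :=
            div_nonneg (mul_nonneg (mul_nonneg h1.le h2.le) (hΨ x x' h2)) hθ.le
          linarith
      · rw [← h2]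
        simp
    · rw [← h1]
      simp
  have h1 : ∑ x, ∑ x', s x * Q x x' ≤ ∑ x, s x * (1 / 8) + (∑ x, ∑ x', s x * Q x x' * Ψ x x') / θ := by
    calc ∑ x, ∑ x', s x * Q x x' ≤ ∑ x, ∑ x', (s x * (if good x x' then 0 else Q x x') +
        s x * Q x x' * Ψ x x' / θ) :=
          Finset.sum_le_sum fun x _ => Finset.sum_le_sum fun x' _ => key x x'
      _ = ∑ x, s x * (∑ x', if good x x' then 0 else Q x x') +
          (∑ x, ∑ x', s x * Q x x' * Ψ x x') / θ := by
          rw [Finset.sum_div, ← Finset.sum_add_distrib]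
          refine Finset.sum_congr rfl fun x _ => ?_
          rw [Finset.sum_add_distrib, Finset.mul_sum, Finset.sum_div]
      _ ≤ _ := by
          gcongr with x _
          · exact hs x
          · exact hgood x
  have h2 : ∑ x, s x * (1 / 8) = 1 / 8 := by
    rw [← Finset.sum_mul, hs1, one_mul]
  have h3 : (∑ x, ∑ x', s x * Q x x' * Ψ x x') / θ ≤ 1 / 8 := by
    rw [div_le_iff₀ hθ]
    linarith
  linarith

end Pool.Agent.H29.AT
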