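import Pool.Agent.H67.AT.Targets
import Pool.Agent.H67.AT.Ser

/-!
# Row SKM: a sum over the skeletons is a product of matrices
-/

set_option autoImplicit false

open Finset PowerSeries Pool.Agent.H67.AT

namespace Pool.Agent.H29.AT

theorem pf_SKM : T_SKM := by
  intro 𝓡 X _ _ _ k
  induction k with
  | zero =>
    intro N x x'
    rw [List.ofFn_zero, List.prod_nil, Matrix.one_apply]
    have h1 : (∑ s : Fin (0 + 1) → X, if s 0 = x ∧ s (Fin.last 0) = x' then
        ∏ i : Fin 0, N i (s i.castSucc) (s i.succ) else 0) =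
        ∑ z : X, if z = x ∧ z = x' then (1 : 𝓡) else 0 := by
      refine Fintype.sum_equiv (Equiv.funUnique (Fin 1) X) _ _ fun s => ?_
      simp only [Finset.univ_eq_empty, Finset.prod_empty]
      rfl
    rw [h1, Finset.sum_eq_single x]
    · simp
    · intro z _ hz
      rw [if_neg fun h => hz h.1]
    · intro h
      exact absurd (Finset.mem_univ x) h
  | succ k ih =>
    intro N x x'
    rw [List.ofFn_succ, List.prod_cons, Matrix.mul_apply]
    have h1 : (∑ s : Fin (k + 1 + 1) → X, if s 0 = x ∧ s (Fin.last (k + 1)) = x' then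
        ∏ i : Fin (k + 1), N i (s i.castSucc) (s i.succ) else 0) =
        ∑ p : X × (Fin (k + 1) → X), if p.1 = x ∧ p.2 (Fin.last k) = x' then
          N 0 p.1 (p.2 0) * ∏ i : Fin k, N i.succ (p.2 i.castSucc) (p.2 i.succ) else 0 := by
      symm
      refine Fintype.sum_equiv (Fin.consEquiv fun _ => X) _ _ fun p => ?_
      have h2 : (Fin.consEquiv fun _ => X) p = Fin.cons p.1 p.2 := rfl
      rw [h2]
      have h3 : (Fin.cons p.1 p.2 : Fin (k + 1 + 1) → X) (Fin.last (k + 1)) =
          p.2 (Fin.last k) := by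
        rw [← Fin.succ_last, Fin.cons_succ]
      rw [h3, Fin.cons_zero, Fin.prod_univ_succ]
      have h4 : (Fin.cons p.1 p.2 : Fin (k + 1 + 1) → X) (Fin.castSucc 0) = p.1 := by
        rw [Fin.castSucc_zero, Fin.cons_zero]
      have h5 : (Fin.cons p.1 p.2 : Fin (k + 1 + 1) → X) (Fin.succ 0) = p.2 0 := by
        rw [Fin.cons_succ]
      rw [h4, h5]
      have h6 : ∀ i : Fin k, N i.succ ((Fin.cons p.1 p.2 : Fin (k + 1 + 1) → X) i.succ.castSucc)
          ((Fin.cons p.1 p.2 : Fin (k + 1 + 1) → X) i.succ.succ) =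
          N i.succ (p.2 i.castSucc) (p.2 i.succ) := by
        intro i
        rw [← Fin.succ_castSucc, Fin.cons_succ, Fin.cons_succ]
      rw [Finset.prod_congr rfl fun i _ => h6 i]
    have h2 : ∀ z, (List.ofFn fun i : Fin k => N i.succ).prod z x' =
        ∑ s : Fin (k + 1) → X, if s 0 = z ∧ s (Fin.last k) = x' then
          ∏ i : Fin k, N i.succ (s i.castSucc) (s i.succ) else 0 := fun z =>
      (ih (fun i => N i.succ) z x').symm
    rw [h1, Fintype.sum_prod_type, Finset.sum_eq_single x]
    · simp only [h2, Finset.mul_sum]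
      rw [Finset.sum_comm]
      refine Finset.sum_congr rfl fun s _ => ?_
      rw [Finset.sum_eq_single (s 0)]
      · by_cases h : s (Fin.last k) = x'
        · simp [h]
        · simp [h]
      · intro z _ hz
        rw [if_neg fun h' => hz h'.1.symm, mul_zero]
      · intro h
        exact absurd (Finset.mem_univ _) h
    · intro z _ hz
      refine Finset.sum_eq_zero fun s _ => ?_
      rw [if_neg fun h => hz h.1]
    · intro h
      exact absurd (Finset.mem_univ x) h

end Pool.Agent.H29.AT
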