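import Pool.Agent.H67.AT.Targets
import Pool.Agent.H67.AT.Ser

/-!
# Row TOT: the total coefficient of a product with one marked block
-/

set_option autoImplicit false

open Finset PowerSeries Pool.Agent.H67.AT

namespace Pool.Agent.H29.AT

theorem pf_TOT (hCOE : T_COE) : T_TOT := by
  intro X _ _ P M n a ha hP hM hrow hcol hup hum t ht t' ht' A B p m hp
  obtain ⟨hc1, hc2⟩ := hCOE X P M n a ha hP hM
  have hU : ∀ q, ∑ x, coeff q ((linm P M ^ t) x A) ≤ a ^ q := fun q => hc2 hcol hum t ht q A
  have hV : ∀ q, ∑ z, coeff q ((linm P M ^ t') B z) ≤ a ^ q := fun q => hc1 hrow hup t' ht' q B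
  have hUn : MNn (linm P M ^ t) := (MNn.linm hP hM).pow t
  have hVn : MNn (linm P M ^ t') := (MNn.linm hP hM).pow t'
  obtain ⟨U, hUe⟩ : ∃ U, U = linm P M ^ t := ⟨_, rfl⟩
  obtain ⟨V, hVe⟩ : ∃ V, V = linm P M ^ t' := ⟨_, rfl⟩
  rw [← hUe] at hU hUn ⊢
  rw [← hVe] at hV hVn ⊢
  have h1 : ∀ x z, (U * (Matrix.of fun x z => if x = A ∧ z = B then
      PowerSeries.C p else 0) * V) x z = PowerSeries.C p * (U x A * V B z) := by
    intro x z
    rw [Matrix.mul_apply, Finset.sum_eq_single B]
    · rw [Matrix.mul_apply, Finset.sum_eq_single A]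
      · rw [Matrix.of_apply, if_pos ⟨rfl, rfl⟩]
        ring
      · intro w _ hw
        rw [Matrix.of_apply, if_neg fun h => hw h.1, mul_zero]
      · intro h
        exact absurd (Finset.mem_univ _) h
    · intro w _ hw
      rw [Matrix.mul_apply, Finset.sum_eq_zero, zero_mul]
      intro v _
      rw [Matrix.of_apply, if_neg fun h => hw h.2, mul_zero]
    · intro h
      exact absurd (Finset.mem_univ _) h
  have h2 : ∀ x z, coeff m ((U * (Matrix.of fun x z => if x = A ∧ z = B then
      PowerSeries.C p else 0) * V) x z) =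
      p * ∑ q ∈ antidiagonal m, coeff q.1 (U x A) * coeff q.2 (V B z) := by
    intro x z
    rw [h1, PowerSeries.coeff_C_mul, PowerSeries.coeff_mul]
  calc ∑ x, ∑ z, coeff m ((U * (Matrix.of fun x z => if x = A ∧ z = B then
      PowerSeries.C p else 0) * V) x z)
      = p * ∑ q ∈ antidiagonal m, (∑ x, coeff q.1 (U x A)) * ∑ z, coeff q.2 (V B z) := by
        simp only [h2]
        rw [Finset.mul_sum]
        have h3 : ∀ x : X, ∑ z : X, p * ∑ q ∈ antidiagonal m, coeff q.1 (U x A) * coeff q.2 (V B z) =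
            ∑ q ∈ antidiagonal m, p * (coeff q.1 (U x A) * ∑ z, coeff q.2 (V B z)) := by
          intro x
          rw [← Finset.mul_sum, Finset.sum_comm, Finset.mul_sum]
          refine Finset.sum_congr rfl fun q _ => ?_
          rw [← Finset.mul_sum]
        simp only [h3]
        rw [Finset.sum_comm]
        refine Finset.sum_congr rfl fun q _ => ?_
        rw [← Finset.mul_sum, ← Finset.sum_mul]
    _ ≤ p * ∑ q ∈ antidiagonal m, a ^ m := by
        refine mul_le_mul_of_nonneg_left (Finset.sum_le_sum fun q hq => ?_) hp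
        have h4 : a ^ m = a ^ q.1 * a ^ q.2 := by
          rw [← pow_add, Finset.HasAntidiagonal.mem_antidiagonal.1 hq]
        rw [h4]
        exact mul_le_mul (hU q.1) (hV q.2) (Finset.sum_nonneg fun z _ => hVn _ _ _)
          (pow_nonneg ha _)
    _ = (m + 1) * a ^ m * p := by
        rw [Finset.sum_const, Finset.Nat.card_antidiagonal, nsmul_eq_mul]
        push_cast
        ring

end Pool.Agent.H29.AT
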